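import Mathlib

/-!
# Coincidences of a divisor-weighted difference with sigma (MP_846857_nt): basic facts
-/

set_option autoImplicit false

namespace Pool.Agent.T6.H74.SG

open Finset

/-- `a n = n τ(n) - ∑ d τ(d)`, the sum over the divisors `d < n` of `n` -/
def a (n : ℕ) : ℤ :=
  (n : ℤ) * (n.divisors.card : ℤ) - ∑ d ∈ n.properDivisors, (d : ℤ) * (d.divisors.card : ℤ)

/-- the sum of the divisors of `n` -/
def sig (n : ℕ) : ℕ := ∑ d ∈ n.divisors, d

/-- `∑ d τ(d)` over all the divisors -/
def g (n : ℕ) : ℕ := ∑ d ∈ n.divisors, d * d.divisors.card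

/-- `g` as an arithmetic function -/
def gA : ArithmeticFunction ℕ :=
  ArithmeticFunction.zeta * (ArithmeticFunction.pmul ArithmeticFunction.id (ArithmeticFunction.sigma 0))

lemma gA_apply (n : ℕ) : gA n = g n := by
  unfold gA g
  rw [ArithmeticFunction.zeta_mul_apply]
  refine Finset.sum_congr rfl fun d _ => ?_
  simp [ArithmeticFunction.sigma_zero_apply]

lemma gA_mult : gA.IsMultiplicative :=
  ArithmeticFunction.isMultiplicative_zeta.mul
    (ArithmeticFunction.isMultiplicative_id.pmul ArithmeticFunction.isMultiplicative_sigma)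

lemma key {n : ℕ} (hn : n ≠ 0) (h : a n = sig n) :
    2 * (n * n.divisors.card) = sig n + g n := by
  have h1 : g n = (∑ d ∈ n.properDivisors, d * d.divisors.card) + n * n.divisors.card := by
    unfold g
    rw [← Nat.insert_self_properDivisors hn, Finset.sum_insert Nat.self_notMem_properDivisors,
      Nat.insert_self_properDivisors hn, add_comm]
  unfold a at h
  have h2 : ((∑ d ∈ n.properDivisors, d * d.divisors.card : ℕ) : ℤ) =
      ∑ d ∈ n.properDivisors, (d : ℤ) * (d.divisors.card : ℤ) := by push_cast; rfl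
  rw [← h2] at h
  zify
  rw [h1]
  push_cast
  push_cast at h
  linarith

/-- the odd primes dividing `n` exactly once -/
def R (n : ℕ) : Finset ℕ := n.primeFactors.filter fun p => p ≠ 2 ∧ n.factorization p = 1

lemma fact {f : ArithmeticFunction ℕ} (hf : f.IsMultiplicative) {n : ℕ} (hn : n ≠ 0) :
    f n = ∏ p ∈ n.primeFactors, f (p ^ n.factorization p) :=
  ArithmeticFunction.IsMultiplicative.multiplicative_factorization f hf hn

lemma dvd_of_even {f : ArithmeticFunction ℕ} (hf : f.IsMultiplicative)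
    (h : ∀ p : ℕ, p.Prime → p ≠ 2 → 2 ∣ f p) {n : ℕ} (hn : n ≠ 0) : 2 ^ (R n).card ∣ f n := by
  rw [fact hf hn]
  calc 2 ^ (R n).card = ∏ _p ∈ R n, 2 := by simp
    _ ∣ ∏ p ∈ R n, f (p ^ n.factorization p) := by
        refine Finset.prod_dvd_prod_of_dvd _ _ fun p hp => ?_
        simp only [R, mem_filter, Nat.mem_primeFactors] at hp
        rw [hp.2.2, pow_one]
        exact h p hp.1.1 hp.2.1
    _ ∣ ∏ p ∈ n.primeFactors, f (p ^ n.factorization p) :=
        Finset.prod_dvd_prod_of_subset _ _ _ (Finset.filter_subset _ _)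

lemma dvd_tau {n : ℕ} (hn : n ≠ 0) : 2 ^ (R n).card ∣ n.divisors.card := by
  have := dvd_of_even (f := ArithmeticFunction.sigma 0) ArithmeticFunction.isMultiplicative_sigma
    (fun p hp _ => by
      rw [ArithmeticFunction.sigma_zero_apply, hp.divisors,
        Finset.card_pair hp.one_lt.ne]) hn
  rwa [ArithmeticFunction.sigma_zero_apply] at this

lemma dvd_sig {n : ℕ} (hn : n ≠ 0) : 2 ^ (R n).card ∣ sig n := by
  have := dvd_of_even (f := ArithmeticFunction.sigma 1) ArithmeticFunction.isMultiplicative_sigma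
    (fun p hp h2 => by
      rw [ArithmeticFunction.sigma_one_apply, hp.divisors, Finset.sum_pair hp.one_lt.ne]
      have := hp.odd_of_ne_two h2
      obtain ⟨k, hk⟩ := this
      exact ⟨k + 1, by omega⟩) hn
  rwa [ArithmeticFunction.sigma_one_apply] at this

lemma g_prime {p : ℕ} (hp : p.Prime) : g p = 1 + 2 * p := by
  unfold g
  rw [hp.divisors, Finset.sum_pair hp.one_lt.ne, hp.divisors, Finset.card_pair hp.one_lt.ne]
  simp
  ring

lemma g_pos {n : ℕ} (hn : n ≠ 0) : 0 < g n := by
  unfold g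
  exact Finset.sum_pos (fun d hd => Nat.mul_pos (Nat.pos_of_mem_divisors hd)
    (Finset.card_pos.2 ⟨1, by
      rw [Nat.one_mem_divisors]; exact (Nat.pos_of_mem_divisors hd).ne'⟩))
    ⟨1, by rw [Nat.one_mem_divisors]; exact hn⟩

/-- the primes whose exponent in `n` is at least two -/
def Sq (n : ℕ) : Finset ℕ := n.primeFactors.filter fun p => ¬ n.factorization p = 1

lemma dvd_g {n : ℕ} (hn : n ≠ 0) (h : a n = sig n) :
    2 ^ (R n).card ∣ ∏ p ∈ Sq n, g (p ^ n.factorization p) := by
  have h1 : 2 ^ (R n).card ∣ g n := by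
    have h2 := key hn h
    have h3 : 2 ^ (R n).card ∣ 2 * (n * n.divisors.card) :=
      Dvd.dvd.mul_left (Dvd.dvd.mul_left (dvd_tau hn) _) _
    rw [h2] at h3
    exact (Nat.dvd_add_right (dvd_sig hn)).1 h3
  rw [← gA_apply, fact gA_mult hn,
    ← Finset.prod_filter_mul_prod_filter_not n.primeFactors (fun p => n.factorization p = 1)] at h1
  have h4 : Nat.Coprime (2 ^ (R n).card) (∏ p ∈ n.primeFactors with n.factorization p = 1,
      gA (p ^ n.factorization p)) := by
    refine Nat.Coprime.prod_right fun p hp => ?_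
    simp only [mem_filter, Nat.mem_primeFactors] at hp
    rw [hp.2, pow_one, gA_apply, g_prime hp.1.1]
    refine Nat.Coprime.pow_left _ ?_
    simp
  have h5 := h4.dvd_of_dvd_mul_left h1
  unfold Sq
  refine h5.trans (dvd_of_eq (Finset.prod_congr rfl fun p _ => gA_apply _))

/-- a bound for the number of the odd primes dividing a solution exactly once -/
lemma bdd (Z : ℕ) : ∃ C : ℕ, ∀ n : ℕ, n ≠ 0 → (∀ m : ℕ, Z < m → ¬ m ^ 2 ∣ n) → a n = sig n →
    2 ^ (R n).card ≤ C := by
  set B : ℕ := 1 + ∑ j ∈ range (Z ^ 3 + 1), g j with hB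
  refine ⟨B ^ (Z + 1), fun n hn hsq h => ?_⟩
  have h1 := dvd_g hn h
  have hpos : 0 < ∏ p ∈ Sq n, g (p ^ n.factorization p) := by
    refine Finset.prod_pos fun p hp => g_pos ?_
    simp only [Sq, mem_filter, Nat.mem_primeFactors] at hp
    exact (pow_pos hp.1.1.pos _).ne'
  refine (Nat.le_of_dvd hpos h1).trans ?_
  have hmem : ∀ p ∈ Sq n, p ≤ Z ∧ g (p ^ n.factorization p) ≤ B := by
    intro p hp
    simp only [Sq, mem_filter, Nat.mem_primeFactors] at hp
    have hp1 := hp.1.1
    have hk1 : 1 ≤ n.factorization p := (hp1.dvd_iff_one_le_factorization hn).1 hp.1.2.1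
    have hk : 2 ≤ n.factorization p := by have := hp.2; omega
    have hpk : p ^ n.factorization p ∣ n := Nat.ordProj_dvd n p
    set k := n.factorization p
    have hpZ : p ≤ Z := by
      by_contra hlt
      push Not at hlt
      exact hsq p hlt ((pow_dvd_pow p hk).trans hpk)
    have hs : p ^ (k / 2) ≤ Z := by
      by_contra hlt
      push Not at hlt
      refine hsq _ hlt ?_
      rw [← pow_mul]
      exact (pow_dvd_pow p (by omega)).trans hpk
    refine ⟨hpZ, ?_⟩
    have h2 : p ^ k ≤ Z ^ 3 := by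
      calc p ^ k ≤ p ^ (k / 2 * 3) := Nat.pow_le_pow_right hp1.pos (by omega)
        _ = (p ^ (k / 2)) ^ 3 := pow_mul _ _ _
        _ ≤ Z ^ 3 := Nat.pow_le_pow_left hs 3
    have h3 : g (p ^ k) ≤ ∑ j ∈ range (Z ^ 3 + 1), g j :=
      Finset.single_le_sum (f := g) (fun _ _ => Nat.zero_le _) (mem_range.2 (by omega))
    omega
  have hcard : (Sq n).card ≤ Z + 1 := by
    have : Sq n ⊆ range (Z + 1) := fun p hp => mem_range.2 (by have := (hmem p hp).1; omega)
    simpa using Finset.card_le_card this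
  calc ∏ p ∈ Sq n, g (p ^ n.factorization p) ≤ B ^ (Sq n).card :=
        Finset.prod_le_pow_card _ _ _ fun p hp => (hmem p hp).2
    _ ≤ B ^ (Z + 1) := Nat.pow_le_pow_right (by omega) hcard

end Pool.Agent.T6.H74.SG
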