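import Pool.Agent.T6.H74.SG.Basic

/-!
# The solutions have density zero
-/

set_option autoImplicit false

namespace Pool.Agent.T6.H74.SG

open Finset Filter

open Classical in
lemma sq_count {Z x : ℕ} (hZ : Z ≠ 0) :
    (((Ioc 0 x).filter fun n => ∃ m, Z < m ∧ m ^ 2 ∣ n).card : ℝ) ≤ x / Z := by
  by_cases hx : Z ≤ x
  · have hsub : ((Ioc 0 x).filter fun n => ∃ m, Z < m ∧ m ^ 2 ∣ n) ⊆
        (Ioc Z x).biUnion fun m => (Ioc 0 x).filter fun n => m ^ 2 ∣ n := by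
      intro n hn
      simp only [mem_filter, mem_Ioc, mem_biUnion] at hn ⊢
      obtain ⟨⟨h0, h1⟩, m, hm, hd⟩ := hn
      have : m ^ 2 ≤ n := Nat.le_of_dvd h0 hd
      exact ⟨m, ⟨hm, by nlinarith⟩, ⟨h0, h1⟩, hd⟩
    have h1 : (((Ioc 0 x).filter fun n => ∃ m, Z < m ∧ m ^ 2 ∣ n).card : ℝ) ≤
        ∑ m ∈ Ioc Z x, (x : ℝ) * ((m : ℝ) ^ 2)⁻¹ := by
      have h2 := (Finset.card_le_card hsub).trans Finset.card_biUnion_le
      have h3 : (∑ m ∈ Ioc Z x, ((Ioc 0 x).filter fun n => m ^ 2 ∣ n).card) =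
          ∑ m ∈ Ioc Z x, x / m ^ 2 :=
        Finset.sum_congr rfl fun m _ => Nat.Ioc_filter_dvd_card_eq_div x (m ^ 2)
      rw [h3] at h2
      calc (((Ioc 0 x).filter fun n => ∃ m, Z < m ∧ m ^ 2 ∣ n).card : ℝ)
          ≤ ((∑ m ∈ Ioc Z x, x / m ^ 2 : ℕ) : ℝ) := by exact_mod_cast h2
        _ = ∑ m ∈ Ioc Z x, ((x / m ^ 2 : ℕ) : ℝ) := by push_cast; rfl
        _ ≤ ∑ m ∈ Ioc Z x, (x : ℝ) * ((m : ℝ) ^ 2)⁻¹ := by
          refine Finset.sum_le_sum fun m _ => ?_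
          have := Nat.cast_div_le (α := ℝ) (m := x) (n := m ^ 2)
          push_cast at this
          rw [← div_eq_mul_inv]
          exact this
    rw [← Finset.mul_sum] at h1
    have h3 := sum_Ioc_inv_sq_le_sub (α := ℝ) hZ hx
    refine h1.trans ?_
    rw [div_eq_mul_inv]
    refine mul_le_mul_of_nonneg_left (h3.trans ?_) (by positivity)
    have : (0 : ℝ) ≤ (x : ℝ)⁻¹ := by positivity
    linarith
  · have he : ((Ioc 0 x).filter fun n => ∃ m, Z < m ∧ m ^ 2 ∣ n) = ∅ := by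
      refine Finset.filter_eq_empty_iff.2 fun n hn => ?_
      rintro ⟨m, hm, hd⟩
      rw [mem_Ioc] at hn
      have : m ^ 2 ≤ n := Nat.le_of_dvd hn.1 hd
      nlinarith
    rw [he]
    simp
    positivity

/-- weight: one half for each prime of `P` dividing `n` exactly once -/
noncomputable def w (P : Finset ℕ) (n : ℕ) : ℝ :=
  ∏ p ∈ P, if p ∣ n ∧ ¬ p ^ 2 ∣ n then (1 / 2 : ℝ) else 1

/-- sum of the weights -/
noncomputable def Fs (P : Finset ℕ) (x : ℕ) : ℝ := ∑ n ∈ Ioc 0 x, w P n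

/-- mean value of the weight -/
noncomputable def L (P : Finset ℕ) : ℝ :=
  ∏ p ∈ P, (1 - 1 / (2 * (p : ℝ)) + 1 / (2 * (p : ℝ) ^ 2))

lemma w_shift {P : Finset ℕ} (hP : ∀ q ∈ P, q.Prime) {p : ℕ} (hp : p.Prime) (hpP : p ∉ P)
    (j m : ℕ) : w P (p ^ j * m) = w P m := by
  unfold w
  refine Finset.prod_congr rfl fun q hq => ?_
  have hne : q ≠ p := fun h => hpP (h ▸ hq)
  have hc : Nat.Coprime q (p ^ j) :=
    Nat.Coprime.pow_right _ ((Nat.coprime_primes (hP q hq) hp).2 hne)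
  have h1 : q ∣ p ^ j * m ↔ q ∣ m := hc.dvd_mul_left
  have h2 : q ^ 2 ∣ p ^ j * m ↔ q ^ 2 ∣ m := (hc.pow_left 2).dvd_mul_left
  simp only [h1, h2]

lemma sum_mul' (f : ℕ → ℝ) {k : ℕ} (hk : 0 < k) (x : ℕ) :
    ∑ n ∈ (Ioc 0 x).filter (fun n => k ∣ n), f n = ∑ m ∈ Ioc 0 (x / k), f (k * m) := by
  symm
  refine Finset.sum_nbij (fun m => k * m) ?_ ?_ ?_ ?_
  · intro m hm
    simp only [mem_filter, mem_Ioc] at hm ⊢
    refine ⟨⟨Nat.mul_pos hk hm.1, ?_⟩, dvd_mul_right _ _⟩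
    have := (Nat.le_div_iff_mul_le hk).1 hm.2
    rwa [mul_comm] at this
  · intro m _ m' _ h
    exact Nat.eq_of_mul_eq_mul_left hk h
  · intro n hn
    simp only [coe_filter, mem_Ioc, Set.mem_ofPred_eq] at hn
    obtain ⟨⟨h0, h1⟩, c, rfl⟩ := hn
    refine ⟨c, ?_, rfl⟩
    simp only [coe_Ioc, Set.mem_Ioc]
    refine ⟨Nat.pos_of_mul_pos_left h0, (Nat.le_div_iff_mul_le hk).2 (by rwa [mul_comm])⟩
  · intro m _
    rfl

lemma Fs_insert {P : Finset ℕ} (hP : ∀ q ∈ P, q.Prime) {p : ℕ} (hp : p.Prime) (hpP : p ∉ P)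
    (x : ℕ) : Fs (insert p P) x =
      Fs P x - (1 / 2) * Fs P (x / p) + (1 / 2) * Fs P (x / p ^ 2) := by
  have h1 : ∀ n, w (insert p P) n =
      w P n - (1 / 2) * (if p ∣ n then w P n else 0) + (1 / 2) * (if p ^ 2 ∣ n then w P n else 0) := by
    intro n
    have : w (insert p P) n = (if p ∣ n ∧ ¬ p ^ 2 ∣ n then (1 / 2 : ℝ) else 1) * w P n := by
      unfold w
      rw [prod_insert hpP]
    rw [this]
    by_cases h1 : p ∣ n
    · by_cases h2 : p ^ 2 ∣ n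
      · simp only [h1, h2]
        simp
      · simp only [h1, h2]
        simp
        ring
    · have h2 : ¬ p ^ 2 ∣ n := fun h2 => h1 ((dvd_pow_self p two_ne_zero).trans h2)
      simp only [h1, h2]
      simp
  have h2 : ∑ n ∈ (Ioc 0 x).filter (fun n => p ∣ n), w P n = Fs P (x / p) := by
    rw [sum_mul' _ hp.pos]
    refine Finset.sum_congr rfl fun m _ => ?_
    have := w_shift hP hp hpP 1 m
    rwa [pow_one] at this
  have h3 : ∑ n ∈ (Ioc 0 x).filter (fun n => p ^ 2 ∣ n), w P n = Fs P (x / p ^ 2) := by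
    rw [sum_mul' _ (pow_pos hp.pos 2)]
    exact Finset.sum_congr rfl fun m _ => w_shift hP hp hpP 2 m
  rw [← h2, ← h3, Finset.sum_filter, Finset.sum_filter, Finset.mul_sum, Finset.mul_sum]
  unfold Fs
  rw [← Finset.sum_sub_distrib, ← Finset.sum_add_distrib]
  exact Finset.sum_congr rfl fun n _ => h1 n

lemma factor {p : ℕ} (hp : 2 ≤ p) : 0 ≤ 1 - 1 / (2 * (p : ℝ)) + 1 / (2 * (p : ℝ) ^ 2) ∧
    1 - 1 / (2 * (p : ℝ)) + 1 / (2 * (p : ℝ) ^ 2) ≤ 1 := by
  have h2 : (2 : ℝ) ≤ p := by exact_mod_cast hp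
  have h0 : (0 : ℝ) < p := by linarith
  constructor
  · have h1 : 1 / (2 * (p : ℝ)) ≤ 1 := by
      rw [div_le_one (by positivity)]
      linarith
    have h3 : (0 : ℝ) ≤ 1 / (2 * (p : ℝ) ^ 2) := by positivity
    linarith
  · have h1 : 1 / (2 * (p : ℝ) ^ 2) ≤ 1 / (2 * (p : ℝ)) :=
      one_div_le_one_div_of_le (by positivity) (by nlinarith)
    linarith

lemma L_mem (P : Finset ℕ) (hP : ∀ q ∈ P, q.Prime) : 0 ≤ L P ∧ L P ≤ 1 :=
  ⟨Finset.prod_nonneg fun q hq => (factor (hP q hq).two_le).1,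
    Finset.prod_le_one (fun q hq => (factor (hP q hq).two_le).1)
      fun q hq => (factor (hP q hq).two_le).2⟩

lemma fl (x k : ℕ) (hk : 0 < k) : ((x / k : ℕ) : ℝ) ≤ x / k ∧ (x : ℝ) / k - 1 ≤ (x / k : ℕ) := by
  refine ⟨Nat.cast_div_le, ?_⟩
  have h1 : x < (x / k + 1) * k := Nat.lt_mul_of_div_lt (Nat.lt_succ_self _) hk
  have h2 : (x : ℝ) < ((x / k : ℕ) + 1) * k := by exact_mod_cast h1
  have hk' : (0 : ℝ) < k := by exact_mod_cast hk
  have h3 : (x : ℝ) / k < (x / k : ℕ) + 1 := by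
    rw [div_lt_iff₀ hk']
    exact h2
  linarith

lemma Fs_asymp (P : Finset ℕ) (hP : ∀ q ∈ P, q.Prime) :
    ∃ E : ℝ, 0 ≤ E ∧ ∀ x : ℕ, |Fs P x - L P * x| ≤ E := by
  induction P using Finset.induction_on with
  | empty => exact ⟨0, le_rfl, fun x => by simp [Fs, w, L]⟩
  | insert p P hpP ih =>
    have hP' : ∀ q ∈ P, q.Prime := fun q hq => hP q (mem_insert_of_mem hq)
    obtain ⟨E, hE, h⟩ := ih hP'
    have hp := hP p (mem_insert_self _ _)
    obtain ⟨hL0, hL1⟩ := L_mem P hP'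
    have hpr : (0 : ℝ) < p := by exact_mod_cast hp.pos
    refine ⟨2 * E + 1, by linarith, fun x => ?_⟩
    have hLi : L (insert p P) = (1 - 1 / (2 * (p : ℝ)) + 1 / (2 * (p : ℝ) ^ 2)) * L P := by
      unfold L
      rw [prod_insert hpP]
    rw [Fs_insert hP' hp hpP, hLi]
    have h1 := abs_le.1 (h x)
    have h2 := abs_le.1 (h (x / p))
    have h3 := abs_le.1 (h (x / p ^ 2))
    obtain ⟨f1, f2⟩ := fl x p hp.pos
    obtain ⟨f3, f4⟩ := fl x (p ^ 2) (pow_pos hp.pos 2)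
    push_cast at f3 f4
    set y1 : ℝ := ((x / p : ℕ) : ℝ)
    set y2 : ℝ := ((x / p ^ 2 : ℕ) : ℝ)
    have g1 : L P * y1 ≤ L P * (x / p) := mul_le_mul_of_nonneg_left f1 hL0
    have g2 : L P * (x / p) - 1 ≤ L P * y1 := by nlinarith
    have g3 : L P * y2 ≤ L P * (x / (p : ℝ) ^ 2) := mul_le_mul_of_nonneg_left f3 hL0
    have g4 : L P * (x / (p : ℝ) ^ 2) - 1 ≤ L P * y2 := by nlinarith
    have e : (1 - 1 / (2 * (p : ℝ)) + 1 / (2 * (p : ℝ) ^ 2)) * L P * x =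
        L P * x - (1 / 2) * (L P * (x / p)) + (1 / 2) * (L P * (x / (p : ℝ) ^ 2)) := by
      field_simp
    rw [e, abs_le]
    constructor <;> linarith [h1.1, h1.2, h2.1, h2.2, h3.1, h3.2]

lemma factor_exp {p : ℕ} (hp : 3 ≤ p) :
    1 - 1 / (2 * (p : ℝ)) + 1 / (2 * (p : ℝ) ^ 2) ≤ Real.exp (-(1 / 3) * (1 / (p : ℝ))) := by
  have h3 : (3 : ℝ) ≤ p := by exact_mod_cast hp
  have h0 : (0 : ℝ) < p := by linarith
  have h1 : 1 - 1 / (2 * (p : ℝ)) + 1 / (2 * (p : ℝ) ^ 2) ≤ 1 - (1 / 3) * (1 / (p : ℝ)) := by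
    have : 1 / (2 * (p : ℝ) ^ 2) ≤ (1 / 6) * (1 / (p : ℝ)) := by
      rw [one_div_mul_one_div, one_div_le_one_div (by positivity) (by positivity)]
      nlinarith
    have e : 1 / (2 * (p : ℝ)) = (1 / 2) * (1 / (p : ℝ)) := by
      rw [one_div_mul_one_div]
    rw [e]
    linarith
  have h2 := Real.add_one_le_exp (-(1 / 3) * (1 / (p : ℝ)))
  linarith

lemma L_small (δ : ℝ) (hδ : 0 < δ) :
    ∃ P : Finset ℕ, (∀ q ∈ P, q.Prime ∧ q ≠ 2) ∧ L P < δ := by
  have hdiv := not_summable_one_div_on_primes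
  rw [not_summable_iff_tendsto_nat_atTop_of_nonneg] at hdiv
  swap
  · intro n
    exact Set.indicator_nonneg (fun _ _ => by positivity) _
  obtain ⟨N, hN⟩ := (hdiv.eventually_ge_atTop (3 * (1 - Real.log δ) + 1)).exists
  refine ⟨(range N).filter fun p => p.Prime ∧ p ≠ 2, fun q hq => (mem_filter.1 hq).2, ?_⟩
  set P := (range N).filter fun p => p.Prime ∧ p ≠ 2 with hPdef
  have h1 : L P ≤ Real.exp (-(1 / 3) * ∑ p ∈ P, 1 / (p : ℝ)) := by
    rw [Finset.mul_sum, Real.exp_sum]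
    unfold L
    refine Finset.prod_le_prod (fun q hq => ?_) fun q hq => ?_
    · exact (factor (mem_filter.1 hq).2.1.two_le).1
    · refine factor_exp ?_
      have h := (mem_filter.1 hq).2
      have := h.1.two_le
      have := h.2
      omega
  have h2 : ∑ n ∈ range N, Set.indicator {p : ℕ | p.Prime} (fun n : ℕ => (1 : ℝ) / n) n ≤
      ∑ p ∈ P, 1 / (p : ℝ) + 1 := by
    have e : ∀ n : ℕ, Set.indicator {p : ℕ | p.Prime} (fun n : ℕ => (1 : ℝ) / n) n ≤
        (if n.Prime ∧ n ≠ 2 then 1 / (n : ℝ) else 0) + (if n = 2 then 1 else 0) := by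
      intro n
      by_cases hn : n.Prime
      · rw [Set.indicator_of_mem (show n ∈ {p : ℕ | p.Prime} from hn)]
        by_cases h2 : n = 2
        · subst h2
          norm_num
        · simp [hn, h2]
      · rw [Set.indicator_of_notMem (show n ∉ {p : ℕ | p.Prime} from hn)]
        positivity
    refine (Finset.sum_le_sum fun n _ => e n).trans ?_
    rw [Finset.sum_add_distrib, ← Finset.sum_filter]
    have : ∑ n ∈ range N, (if n = 2 then (1 : ℝ) else 0) ≤ 1 := by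
      rw [Finset.sum_ite_eq']
      split_ifs <;> norm_num
    linarith
  refine h1.trans_lt ?_
  rw [← Real.lt_log_iff_exp_lt hδ]
  linarith

lemma w_ge {P : Finset ℕ} (hP : ∀ q ∈ P, q.Prime ∧ q ≠ 2) {n : ℕ} (hn : n ≠ 0) :
    (1 / 2 : ℝ) ^ (R n).card ≤ w P n := by
  have h1 : w P n = (1 / 2 : ℝ) ^ (P.filter fun p => p ∣ n ∧ ¬ p ^ 2 ∣ n).card := by
    unfold w
    rw [Finset.prod_ite]
    simp
  rw [h1]
  refine pow_le_pow_of_le_one (by norm_num) (by norm_num) (Finset.card_le_card ?_)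
  intro p hp
  simp only [mem_filter] at hp
  obtain ⟨hpP, hd, hd2⟩ := hp
  obtain ⟨hpp, hp2⟩ := hP p hpP
  simp only [R, mem_filter, Nat.mem_primeFactors]
  refine ⟨⟨hpp, hd, hn⟩, hp2, ?_⟩
  have h3 : 1 ≤ n.factorization p := (hpp.dvd_iff_one_le_factorization hn).1 hd
  have h4 : ¬ 2 ≤ n.factorization p := fun h => hd2 ((hpp.pow_dvd_iff_le_factorization hn).2 h)
  omega

lemma w_nonneg (P : Finset ℕ) (n : ℕ) : 0 ≤ w P n :=
  Finset.prod_nonneg fun p _ => by split_ifs <;> norm_num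

/-- the solutions have density zero -/
theorem dens :
    Tendsto (fun x : ℕ => (((Icc 1 x).filter fun n => a n = sig n).card : ℝ) / x) atTop
      (nhds 0) := by
  rw [Metric.tendsto_atTop]
  intro ε hε
  obtain ⟨Z, hZ⟩ := exists_nat_gt (3 / ε)
  have hZ0 : (0 : ℝ) < Z := lt_trans (by positivity) hZ
  have hZn : Z ≠ 0 := by
    rintro rfl
    simp at hZ0
  obtain ⟨C, hC⟩ := bdd Z
  obtain ⟨P, hP, hLP⟩ := L_small (ε / (3 * (C + 1))) (by positivity)
  obtain ⟨E, hE, hF⟩ := Fs_asymp P fun q hq => (hP q hq).1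
  obtain ⟨X0, hX0⟩ := exists_nat_gt (3 * (C * E) / ε)
  refine ⟨X0 + 1, fun x hx => ?_⟩
  have hx0 : (0 : ℝ) < x := by
    have : 0 < x := by omega
    exact_mod_cast this
  have hxX : 3 * (C * E) / ε < x := hX0.trans (by exact_mod_cast (show X0 < x by omega))
  rw [Real.dist_eq, sub_zero, abs_of_nonneg (by positivity), div_lt_iff₀ hx0]
  classical
  set S := (Icc 1 x).filter fun n => a n = sig n
  set Bad := (Ioc 0 x).filter fun n => ∃ m, Z < m ∧ m ^ 2 ∣ n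
  have h1 : (S.card : ℝ) ≤ (Bad.card : ℝ) + ((S \ Bad).card : ℝ) := by
    have : S.card ≤ Bad.card + (S \ Bad).card := by
      have h := Finset.card_le_card (show S ⊆ Bad ∪ (S \ Bad) by
        intro n hn
        by_cases hb : n ∈ Bad
        · exact mem_union_left _ hb
        · exact mem_union_right _ (mem_sdiff.2 ⟨hn, hb⟩))
      exact h.trans (Finset.card_union_le _ _)
    exact_mod_cast this
  have h2 : (Bad.card : ℝ) ≤ x / Z := sq_count hZn
  have h3 : ((S \ Bad).card : ℝ) ≤ C * Fs P x := by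
    calc ((S \ Bad).card : ℝ) = ∑ _n ∈ S \ Bad, (1 : ℝ) := by simp
      _ ≤ ∑ n ∈ S \ Bad, C * w P n := by
          refine Finset.sum_le_sum fun n hn => ?_
          obtain ⟨hnS, hnB⟩ := mem_sdiff.1 hn
          obtain ⟨hnI, hna⟩ := mem_filter.1 hnS
          rw [mem_Icc] at hnI
          have hn0 : n ≠ 0 := by omega
          have hgood : ∀ m : ℕ, Z < m → ¬ m ^ 2 ∣ n := by
            intro m hm hd
            exact hnB (mem_filter.2 ⟨mem_Ioc.2 ⟨by omega, hnI.2⟩, m, hm, hd⟩)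
          have h4 : (2 : ℝ) ^ (R n).card ≤ C := by exact_mod_cast hC n hn0 hgood hna
          have h5 := w_ge hP hn0
          calc (1 : ℝ) = 2 ^ (R n).card * (1 / 2) ^ (R n).card := by
                rw [← mul_pow]; norm_num
            _ ≤ C * w P n := mul_le_mul h4 h5 (by positivity) (by positivity)
      _ ≤ ∑ n ∈ Ioc 0 x, C * w P n := by
          refine Finset.sum_le_sum_of_subset_of_nonneg ?_ fun n _ _ =>
            mul_nonneg (by positivity) (w_nonneg P n)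
          intro n hn
          have := mem_Icc.1 (mem_filter.1 (mem_sdiff.1 hn).1).1
          exact mem_Ioc.2 ⟨by omega, this.2⟩
      _ = C * Fs P x := by rw [← Finset.mul_sum]; rfl
  have h4 : Fs P x ≤ L P * x + E := by
    have := (abs_le.1 (hF x)).2
    linarith
  have hC0 : (0 : ℝ) ≤ C := by positivity
  have h5 : (C : ℝ) * Fs P x ≤ C * (L P * x) + C * E := by
    have := mul_le_mul_of_nonneg_left h4 hC0
    linarith
  have h6 : (x : ℝ) / Z < ε / 3 * x := by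
    rw [div_lt_iff₀ hZ0]
    rw [div_lt_iff₀ hε] at hZ
    nlinarith
  have h7 : (C : ℝ) * (L P * x) ≤ ε / 3 * x := by
    have h8 : (C : ℝ) * L P ≤ ε / 3 := by
      have h9 : (C : ℝ) * L P ≤ C * (ε / (3 * (C + 1))) := mul_le_mul_of_nonneg_left hLP.le hC0
      refine h9.trans ?_
      rw [mul_div_assoc', div_le_div_iff₀ (by positivity) (by norm_num)]
      nlinarith
    rw [← mul_assoc]
    exact mul_le_mul_of_nonneg_right h8 hx0.le
  have h10 : (C : ℝ) * E < ε / 3 * x := by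
    rw [div_lt_iff₀ hε] at hxX
    linarith
  linarith

end Pool.Agent.T6.H74.SG
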