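import Pool.Agent.T6.H74.SG.Tot

/-!
# Parity of the exponents in a solution
-/

set_option autoImplicit false

namespace Pool.Agent.T6.H74.SG

open Finset

/-- the odd primes whose exponent in `n` is odd -/
def R' (n : ℕ) : Finset ℕ := n.primeFactors.filter fun p => p ≠ 2 ∧ Odd (n.factorization p)

lemma dvd_of_even' {f : ArithmeticFunction ℕ} (hf : f.IsMultiplicative)
    (h : ∀ p k : ℕ, p.Prime → p ≠ 2 → Odd k → 2 ∣ f (p ^ k)) {n : ℕ} (hn : n ≠ 0) :
    2 ^ (R' n).card ∣ f n := by
  rw [fact hf hn]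
  calc 2 ^ (R' n).card = ∏ _p ∈ R' n, 2 := by simp
    _ ∣ ∏ p ∈ R' n, f (p ^ n.factorization p) := by
        refine Finset.prod_dvd_prod_of_dvd _ _ fun p hp => ?_
        simp only [R', mem_filter, Nat.mem_primeFactors] at hp
        exact h p _ hp.1.1 hp.2.1 hp.2.2
    _ ∣ ∏ p ∈ n.primeFactors, f (p ^ n.factorization p) :=
        Finset.prod_dvd_prod_of_subset _ _ _ (Finset.filter_subset _ _)

lemma dvd_tau' {n : ℕ} (hn : n ≠ 0) : 2 ^ (R' n).card ∣ n.divisors.card := by
  have := dvd_of_even' (f := ArithmeticFunction.sigma 0) ArithmeticFunction.isMultiplicative_sigma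
    (fun p k hp _ hk => by
      rw [ArithmeticFunction.sigma_zero_apply, Nat.divisors_prime_pow hp, Finset.card_map,
        Finset.card_range]
      obtain ⟨c, rfl⟩ := hk
      exact ⟨c + 1, by ring⟩) hn
  rwa [ArithmeticFunction.sigma_zero_apply] at this

lemma dvd_sig' {n : ℕ} (hn : n ≠ 0) : 2 ^ (R' n).card ∣ sig n := by
  have := dvd_of_even' (f := ArithmeticFunction.sigma 1) ArithmeticFunction.isMultiplicative_sigma
    (fun p k hp h2 hk => by
      have h3 := sig_pp hp k
      unfold sig at h3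
      rw [ArithmeticFunction.sigma_one_apply, h3]
      have hodd := hp.odd_of_ne_two h2
      obtain ⟨c, rfl⟩ := hk
      have : ∀ c : ℕ, 2 ∣ ∑ i ∈ range (2 * c), p ^ i := by
        intro c
        induction c with
        | zero => simp
        | succ c ih =>
          rw [show 2 * (c + 1) = 2 * c + 1 + 1 by ring, Finset.sum_range_succ,
            Finset.sum_range_succ, add_assoc]
          refine dvd_add ih ?_
          rw [← even_iff_two_dvd]
          exact (hodd.pow).add_odd (hodd.pow)
      have h4 := this (c + 1)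
      rwa [show 2 * (c + 1) = 2 * c + 1 + 1 by ring] at h4) hn
  rwa [ArithmeticFunction.sigma_one_apply] at this

lemma g_odd {p : ℕ} (hp : p.Prime) {e : ℕ} (h : p = 2 ∨ e % 4 = 0 ∨ e % 4 = 1) :
    Odd (g (p ^ e)) := by
  by_cases h2 : p = 2
  · subst h2
    rw [g_two]
    exact ⟨e * 2 ^ e, by rw [pow_succ]; ring⟩
  · have h' : e % 4 = 0 ∨ e % 4 = 1 := by tauto
    have hodd := hp.odd_of_ne_two h2
    rw [g_pp hp]
    have h1 : ∀ N : ℕ, (Odd (∑ i ∈ range N, (i + 1) * p ^ i) ↔ (N % 4 = 1 ∨ N % 4 = 2)) := by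
      intro N
      induction N with
      | zero => simp
      | succ N ih =>
        rw [Finset.sum_range_succ]
        have h5 : Odd ((N + 1) * p ^ N) ↔ Even N := by
          rw [Nat.odd_mul]
          constructor
          · rintro ⟨h6, -⟩
            rcases Nat.even_or_odd N with h7 | h7
            · exact h7
            · exact absurd h6 (Nat.not_odd_iff_even.2 h7.add_one)
          · intro h6
            exact ⟨h6.add_one, hodd.pow⟩
        rw [Nat.odd_add, ih, ← Nat.not_odd_iff_even, h5, Nat.even_iff]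
        omega
    rw [h1]
    omega

/-- the odd primes whose exponent in `n` is `2` or `3` modulo `4` -/
def Q' (n : ℕ) : Finset ℕ :=
  n.primeFactors.filter fun p => p ≠ 2 ∧ (n.factorization p % 4 = 2 ∨ n.factorization p % 4 = 3)

theorem par {n : ℕ} (hn : n ≠ 0) (h : a n = sig n) :
    2 ^ (R' n).card ∣ ∏ p ∈ Q' n, ∑ i ∈ range (n.factorization p + 1), (i + 1) * p ^ i := by
  have h1 : 2 ^ (R' n).card ∣ g n := by
    have h2 := key hn h
    have h3 : 2 ^ (R' n).card ∣ 2 * (n * n.divisors.card) :=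
      Dvd.dvd.mul_left (Dvd.dvd.mul_left (dvd_tau' hn) _) _
    rw [h2] at h3
    exact (Nat.dvd_add_right (dvd_sig' hn)).1 h3
  rw [← gA_apply, fact gA_mult hn,
    ← Finset.prod_filter_mul_prod_filter_not n.primeFactors
      (fun p => p ≠ 2 ∧ (n.factorization p % 4 = 2 ∨ n.factorization p % 4 = 3))] at h1
  have h4 : Nat.Coprime (2 ^ (R' n).card) (∏ p ∈ n.primeFactors with
      ¬ (p ≠ 2 ∧ (n.factorization p % 4 = 2 ∨ n.factorization p % 4 = 3)),
      gA (p ^ n.factorization p)) := by
    refine Nat.Coprime.prod_right fun p hp => ?_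
    simp only [mem_filter, Nat.mem_primeFactors] at hp
    refine Nat.Coprime.pow_left _ (Nat.coprime_two_left.2 ?_)
    rw [gA_apply]
    refine g_odd hp.1.1 ?_
    by_cases h2 : p = 2
    · exact Or.inl h2
    · right
      have := hp.2
      have h5 : ¬ (n.factorization p % 4 = 2 ∨ n.factorization p % 4 = 3) := fun h => this ⟨h2, h⟩
      omega
  have h5 := h4.dvd_of_dvd_mul_right h1
  refine h5.trans (dvd_of_eq (Finset.prod_congr rfl fun p hp => ?_))
  have hp1 : p ∈ n.primeFactors := (Finset.mem_filter.1 hp).1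
  rw [gA_apply, g_pp (Nat.prime_of_mem_primeFactors hp1)]

end Pool.Agent.T6.H74.SG
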