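import Pool.Agent.T6.H74.SG.Basic

/-!
# A condition on the odd part of a solution
-/

set_option autoImplicit false

namespace Pool.Agent.T6.H74.SG

open Finset

/-- `n τ(n)` -/
def T (n : ℕ) : ℕ := n * n.divisors.card

lemma T_mul {m n : ℕ} (h : Nat.Coprime m n) : T (m * n) = T m * T n := by
  unfold T
  rw [h.card_divisors_mul]
  ring

lemma g_mul {m n : ℕ} (h : Nat.Coprime m n) : g (m * n) = g m * g n := by
  rw [← gA_apply, ← gA_apply, ← gA_apply]
  exact gA_mult.map_mul_of_coprime h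

lemma sig_mul {m n : ℕ} (h : Nat.Coprime m n) : sig (m * n) = sig m * sig n :=
  h.sum_divisors_mul

lemma T_pp {p : ℕ} (hp : p.Prime) (k : ℕ) : T (p ^ k) = (k + 1) * p ^ k := by
  unfold T
  rw [Nat.divisors_prime_pow hp, Finset.card_map, Finset.card_range]
  ring

lemma sig_pp {p : ℕ} (hp : p.Prime) (k : ℕ) : sig (p ^ k) = ∑ i ∈ range (k + 1), p ^ i := by
  unfold sig
  rw [Nat.divisors_prime_pow hp, Finset.sum_map]
  rfl

lemma g_pp {p : ℕ} (hp : p.Prime) (k : ℕ) :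
    g (p ^ k) = ∑ i ∈ range (k + 1), (i + 1) * p ^ i := by
  unfold g
  rw [Nat.divisors_prime_pow hp, Finset.sum_map]
  refine Finset.sum_congr rfl fun i _ => ?_
  exact T_pp hp i

/-- the identity behind everything: `(p - 1) g(p^k) + σ(p^k) = p T(p^k)` -/
lemma ident {p : ℕ} (hp : p.Prime) (k : ℕ) :
    ((p : ℝ) - 1) * g (p ^ k) + sig (p ^ k) = p * T (p ^ k) := by
  rw [g_pp hp, sig_pp hp, T_pp hp]
  push_cast
  induction k with
  | zero => simp
  | succ k ih =>
    rw [Finset.sum_range_succ, Finset.sum_range_succ _ (k + 1)]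
    have : ((p : ℝ) - 1) * (∑ i ∈ range (k + 1), ((i : ℝ) + 1) * (p : ℝ) ^ i +
        (((k + 1 : ℕ) : ℝ) + 1) * (p : ℝ) ^ (k + 1)) +
        (∑ i ∈ range (k + 1), (p : ℝ) ^ i + (p : ℝ) ^ (k + 1)) =
        (((p : ℝ) - 1) * ∑ i ∈ range (k + 1), ((i : ℝ) + 1) * (p : ℝ) ^ i +
          ∑ i ∈ range (k + 1), (p : ℝ) ^ i) +
        (((p : ℝ) - 1) * ((((k + 1 : ℕ) : ℝ) + 1) * (p : ℝ) ^ (k + 1)) + (p : ℝ) ^ (k + 1)) := by
      ring
    rw [this, ih]
    push_cast
    ring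

lemma T_pos {n : ℕ} (hn : n ≠ 0) : 0 < T n :=
  Nat.mul_pos (Nat.pos_of_ne_zero hn) (Finset.card_pos.2 ⟨1, Nat.one_mem_divisors.2 hn⟩)

lemma sig_le {n : ℕ} : sig n ≤ T n := by
  unfold sig T
  have := Finset.sum_le_card_nsmul n.divisors (fun d => d) n (fun d hd => Nat.divisor_le hd)
  rw [smul_eq_mul] at this
  linarith [mul_comm n n.divisors.card]

lemma sig_lt {n : ℕ} (hn : 1 < n) : sig n < T n := by
  unfold sig T
  have h1 : ∑ d ∈ n.divisors, d < ∑ _d ∈ n.divisors, n :=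
    Finset.sum_lt_sum (fun d hd => Nat.divisor_le hd) ⟨1, Nat.one_mem_divisors.2 (by omega), hn⟩
  rw [Finset.sum_const, smul_eq_mul] at h1
  linarith [mul_comm n n.divisors.card]

/-- `G ≤ S + C (T - S)` with `C = m / φ(m)` -/
lemma bound (m : ℕ) (hm : 0 < m) :
    (g m : ℝ) ≤ sig m + (m : ℝ) / m.totient * ((T m : ℝ) - sig m) := by
  induction m using Nat.recOnPosPrimePosCoprime with
  | prime_pow p n hp hn =>
    have h1 := ident hp n
    have hp1 : (1 : ℝ) < p := by exact_mod_cast hp.one_lt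
    have hp0 : (0 : ℝ) < p := by linarith
    have hC : ((p ^ n : ℕ) : ℝ) / (p ^ n).totient = p / ((p : ℝ) - 1) := by
      rw [Nat.totient_prime_pow hp hn]
      have h2 : ((p - 1 : ℕ) : ℝ) = (p : ℝ) - 1 := by
        rw [Nat.cast_sub hp.one_lt.le]; simp
      push_cast
      rw [h2]
      obtain ⟨j, rfl⟩ := Nat.exists_eq_add_of_le' hn
      rw [Nat.add_sub_cancel, pow_succ]
      have h3 : (p : ℝ) - 1 ≠ 0 := by linarith
      field_simp
    rw [hC]
    have h3 : (0 : ℝ) < (p : ℝ) - 1 := by linarith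
    rw [div_mul_eq_mul_div, ← sub_le_iff_le_add', le_div_iff₀ h3]
    linarith
  | zero => exact absurd hm (lt_irrefl 0)
  | one =>
    simp [g, sig, T]
  | coprime x y hx hy hxy ihx ihy =>
    have hx0 : 0 < x := by omega
    have hy0 : 0 < y := by omega
    have h1 := ihx hx0
    have h2 := ihy hy0
    rw [g_mul hxy, sig_mul hxy, T_mul hxy, Nat.totient_mul hxy]
    push_cast
    have tx : (0 : ℝ) < x.totient := by exact_mod_cast Nat.totient_pos.2 hx0
    have ty : (0 : ℝ) < y.totient := by exact_mod_cast Nat.totient_pos.2 hy0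
    have hCx : 1 ≤ (x : ℝ) / x.totient := by
      rw [le_div_iff₀ tx, one_mul]; exact_mod_cast Nat.totient_le x
    have hCy : 1 ≤ (y : ℝ) / y.totient := by
      rw [le_div_iff₀ ty, one_mul]; exact_mod_cast Nat.totient_le y
    have hC : (x : ℝ) * y / (x.totient * y.totient) = (x : ℝ) / x.totient * (y / y.totient) := by
      rw [div_mul_div_comm]
    rw [hC]
    set A := (x : ℝ) / x.totient
    set B := (y : ℝ) / y.totient
    have sx : (sig x : ℝ) ≤ T x := by exact_mod_cast sig_le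
    have sy : (sig y : ℝ) ≤ T y := by exact_mod_cast sig_le
    have s0 : (0 : ℝ) ≤ sig x := by positivity
    have s1 : (0 : ℝ) ≤ sig y := by positivity
    have g0 : (0 : ℝ) ≤ g y := by positivity
    have hprod : (g x : ℝ) * g y ≤ (sig x + A * (T x - sig x)) * (sig y + B * (T y - sig y)) :=
      mul_le_mul h1 h2 g0 (by nlinarith [mul_nonneg (by linarith : (0:ℝ) ≤ A) (sub_nonneg.2 sx)])
    refine hprod.trans ?_
    have e1 : 0 ≤ (A * B - B) * (sig x * (T y - sig y)) :=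
      mul_nonneg (by nlinarith) (mul_nonneg s0 (sub_nonneg.2 sy))
    have e2 : 0 ≤ (A * B - A) * (sig y * (T x - sig x)) :=
      mul_nonneg (by nlinarith) (mul_nonneg s1 (sub_nonneg.2 sx))
    nlinarith [e1, e2]

lemma two_pow (k : ℕ) : (g (2 ^ k) : ℝ) + sig (2 ^ k) = 2 * T (2 ^ k) := by
  have := ident Nat.prime_two k
  push_cast at this
  linarith

lemma g_two (k : ℕ) : g (2 ^ k) = k * 2 ^ (k + 1) + 1 := by
  rw [g_pp Nat.prime_two]
  induction k with
  | zero => simp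
  | succ k ih =>
    rw [Finset.sum_range_succ, ih]
    ring

/-- the necessary condition -/
theorem tot (k m : ℕ) (hm : 1 < m) (hodd : Odd m) (h : a (2 ^ k * m) = sig (2 ^ k * m)) :
    (k + 1) * 2 ^ (k + 1) * m.totient ≤ (k * 2 ^ (k + 1) + 1) * m := by
  have hc : Nat.Coprime (2 ^ k) m := Nat.Coprime.pow_left _ (Nat.coprime_two_left.2 hodd)
  have h0 : 2 ^ k * m ≠ 0 := by positivity
  have h1 := key h0 h
  have h2 : 2 * (T (2 ^ k) * T m) = sig (2 ^ k) * sig m + g (2 ^ k) * g m := by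
    rw [← T_mul hc, ← sig_mul hc, ← g_mul hc]
    exact h1
  have h3 : 2 * ((T (2 ^ k) : ℝ) * T m) = sig (2 ^ k) * sig m + g (2 ^ k) * g m := by
    exact_mod_cast h2
  have h4 := bound m (by omega)
  have h5 := two_pow k
  have h6 : (sig m : ℝ) < T m := by exact_mod_cast sig_lt hm
  have tm : (0 : ℝ) < m.totient := by exact_mod_cast Nat.totient_pos.2 (by omega : 0 < m)
  have g0 : (0 : ℝ) ≤ g (2 ^ k) := by positivity
  have h7 : (g (2 ^ k) : ℝ) * g m ≤ g (2 ^ k) * (sig m + (m : ℝ) / m.totient * ((T m : ℝ) - sig m)) :=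
    mul_le_mul_of_nonneg_left h4 g0
  have h8 : 2 * (T (2 ^ k) : ℝ) * (T m - sig m) ≤
      g (2 ^ k) * ((m : ℝ) / m.totient) * (T m - sig m) := by
    have : (sig (2 ^ k) : ℝ) = 2 * T (2 ^ k) - g (2 ^ k) := by linarith
    rw [this] at h3
    nlinarith
  have h9 : 2 * (T (2 ^ k) : ℝ) ≤ g (2 ^ k) * ((m : ℝ) / m.totient) :=
    le_of_mul_le_mul_right h8 (sub_pos.2 h6)
  rw [mul_div_assoc', le_div_iff₀ tm, T_pp Nat.prime_two, g_two] at h9
  push_cast at h9
  have h10 : (((k + 1) * 2 ^ (k + 1) * m.totient : ℕ) : ℝ) ≤ (((k * 2 ^ (k + 1) + 1) * m : ℕ) : ℝ) := by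
    push_cast
    rw [pow_succ] at h9 ⊢
    linarith
  exact_mod_cast h10

/-- the necessary condition, strict form -/
theorem tot_lt (k m : ℕ) (hm : 1 < m) (hodd : Odd m) (h : a (2 ^ k * m) = sig (2 ^ k * m)) :
    (k + 1) * 2 ^ (k + 1) * m.totient < (k * 2 ^ (k + 1) + 1) * m := by
  refine lt_of_le_of_ne (tot k m hm hodd h) fun he => ?_
  have h1 : Even ((k + 1) * 2 ^ (k + 1) * m.totient) := by
    rw [pow_succ]
    exact ⟨(k + 1) * 2 ^ k * m.totient, by ring⟩
  have h2 : Odd ((k * 2 ^ (k + 1) + 1) * m) := by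
    refine Odd.mul ⟨k * 2 ^ k, ?_⟩ hodd
    rw [pow_succ]; ring
  rw [he] at h1
  exact (Nat.not_even_iff_odd.2 h2) h1

end Pool.Agent.T6.H74.SG
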