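import Pool.Agent.T6.H74.SG.Tot

/-!
# Numbers with at most two prime factors
-/

set_option autoImplicit false

namespace Pool.Agent.T6.H74.SG

open Finset

lemma not_two_prime {p : ℕ} (hp : p.Prime) (h2 : p ≠ 2) (k j : ℕ) (hj : 0 < j) :
    a (2 ^ k * p ^ j) ≠ sig (2 ^ k * p ^ j) := by
  intro h
  have hodd : Odd p := hp.odd_of_ne_two h2
  have hc : Nat.Coprime (2 ^ k) (p ^ j) :=
    Nat.Coprime.pow _ _ (Nat.coprime_two_left.2 hodd)
  have h0 : 2 ^ k * p ^ j ≠ 0 := by have := hp.pos; positivity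
  have h1 := key h0 h
  have h2' : 2 * (T (2 ^ k) * T (p ^ j)) =
      sig (2 ^ k) * sig (p ^ j) + g (2 ^ k) * g (p ^ j) := by
    rw [← T_mul hc, ← sig_mul hc, ← g_mul hc]
    exact h1
  have h3 : 2 * ((T (2 ^ k) : ℝ) * T (p ^ j)) =
      sig (2 ^ k) * sig (p ^ j) + g (2 ^ k) * g (p ^ j) := by
    exact_mod_cast h2'
  have h5 := two_pow k
  have h6 : (sig (p ^ j) : ℝ) < T (p ^ j) := by
    exact_mod_cast sig_lt (Nat.one_lt_pow hj.ne' hp.one_lt)
  have h7 := ident hp j
  have h8 : (2 * ((p : ℝ) - 1) * T (2 ^ k) - p * g (2 ^ k)) * (T (p ^ j) - sig (p ^ j)) = 0 := by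
    have e1 : (sig (2 ^ k) : ℝ) = 2 * T (2 ^ k) - g (2 ^ k) := by linarith
    rw [e1] at h3
    have e2 : ((p : ℝ) - 1) * (2 * ((T (2 ^ k) : ℝ) * T (p ^ j))) = ((p : ℝ) - 1) *
      ((2 * T (2 ^ k) - g (2 ^ k)) * sig (p ^ j) + g (2 ^ k) * g (p ^ j)) := by rw [h3]
    have e3 : (g (2 ^ k) : ℝ) * (((p : ℝ) - 1) * g (p ^ j) + sig (p ^ j)) =
      g (2 ^ k) * (p * T (p ^ j)) := by rw [h7]
    linarith
  have h9 : 2 * ((p : ℝ) - 1) * T (2 ^ k) - p * g (2 ^ k) = 0 := by
    rcases mul_eq_zero.1 h8 with h | h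
    · exact h
    · linarith
  rw [T_pp Nat.prime_two, g_two] at h9
  obtain ⟨c, hc'⟩ := hodd
  have h10 : 2 * (2 * (c : ℝ)) * ((k + 1) * 2 ^ k) = (2 * c + 1) * (k * 2 ^ (k + 1) + 1) := by
    have : (p : ℝ) = 2 * c + 1 := by rw [hc']; push_cast; ring
    rw [this] at h9
    push_cast at h9
    linarith
  have h11 : 2 * (2 * c) * ((k + 1) * 2 ^ k) = (2 * c + 1) * (k * 2 ^ (k + 1) + 1) := by
    exact_mod_cast h10
  have hev : Even (2 * (2 * c) * ((k + 1) * 2 ^ k)) := by
    rw [mul_assoc]; exact even_two_mul _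
  have hod : Odd ((2 * c + 1) * (k * 2 ^ (k + 1) + 1)) := by
    refine Odd.mul ⟨c, rfl⟩ ⟨k * 2 ^ k, ?_⟩
    rw [pow_succ]; ring
  rw [h11] at hev
  exact (Nat.not_even_iff_odd.2 hod) hev

lemma prod_gt {s : Finset ℕ} (hs : ∀ p ∈ s, p.Prime ∧ p ≠ 2) (hc : s.card ≤ 2) :
    (1 / 2 : ℚ) < ∏ p ∈ s, (1 - (p : ℚ)⁻¹) := by
  have h3 : ∀ p ∈ s, 3 ≤ p := by
    intro p hp
    have h := hs p hp
    have := h.1.two_le
    have := h.2
    omega
  have hb : ∀ (p c : ℕ), 0 < c → c ≤ p → (1 : ℚ) - (c : ℚ)⁻¹ ≤ 1 - (p : ℚ)⁻¹ := by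
    intro p c h0 h
    have : (p : ℚ)⁻¹ ≤ (c : ℚ)⁻¹ := by
      apply inv_anti₀
      · exact_mod_cast h0
      · exact_mod_cast h
    linarith
  have hpair : ∀ p q : ℕ, p ∈ s → q ∈ s → p < q → (1 / 2 : ℚ) < (1 - (p : ℚ)⁻¹) * (1 - (q : ℚ)⁻¹) := by
    intro p q hp hq hpq
    have h5 : 5 ≤ q := by
      have := h3 p hp
      have hq' := hs q hq
      have : q ≠ 4 := by
        rintro rfl
        exact absurd hq'.1 (by norm_num)
      omega
    have e1 := hb p 3 (by norm_num) (h3 p hp)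
    have e2 := hb q 5 (by norm_num) h5
    norm_num at e1 e2
    nlinarith
  rcases Nat.lt_or_ge s.card 1 with h | h
  · have : s = ∅ := Finset.card_eq_zero.1 (by omega)
    subst this
    norm_num
  · rcases Nat.lt_or_ge s.card 2 with h' | h'
    · obtain ⟨p, rfl⟩ := Finset.card_eq_one.1 (by omega : s.card = 1)
      rw [Finset.prod_singleton]
      have e1 := hb p 3 (by norm_num) (h3 p (mem_singleton_self p))
      norm_num at e1
      norm_num
      linarith
    · obtain ⟨p, q, hne, rfl⟩ := Finset.card_eq_two.1 (by omega : s.card = 2)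
      rw [Finset.prod_pair hne]
      rcases lt_or_gt_of_ne hne with h | h
      · exact hpair p q (by simp) (by simp) h
      · rw [mul_comm]
        exact hpair q p (by simp) (by simp) h

theorem two_primes (n : ℕ) (hn : 0 < n) (hc : n.primeFactors.card ≤ 2) :
    a n = sig n ↔ ∃ k : ℕ, n = 2 ^ k := by
  constructor
  · intro h
    obtain ⟨k, m, hodd, rfl⟩ := Nat.exists_eq_two_pow_mul_odd hn.ne'
    rcases Nat.lt_or_ge 1 m with hm | hm
    swap
    · have : m = 1 := by
        have := hodd.pos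
        omega
      exact ⟨k, by rw [this, mul_one]⟩
    exfalso
    have hcop : Nat.Coprime (2 ^ k) m := Nat.Coprime.pow_left _ (Nat.coprime_two_left.2 hodd)
    have hpf : ∀ p ∈ m.primeFactors, p.Prime ∧ p ≠ 2 := by
      intro p hp
      refine ⟨Nat.prime_of_mem_primeFactors hp, ?_⟩
      rintro rfl
      exact (Nat.not_even_iff_odd.2 hodd) ((Nat.dvd_of_mem_primeFactors hp).even (by decide))
    rcases Nat.eq_zero_or_pos k with hk | hk
    · subst hk
      rw [pow_zero, one_mul] at hc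
      have h1 := tot 0 m hm hodd h
      have h2 := Nat.totient_eq_mul_prod_factors m
      have h3 := prod_gt hpf hc
      have h4 : ((0 + 1) * 2 ^ (0 + 1) * m.totient : ℚ) ≤ ((0 * 2 ^ (0 + 1) + 1) * m : ℚ) := by
        exact_mod_cast h1
      rw [h2] at h4
      have h5 : (0 : ℚ) < m := by exact_mod_cast (by omega : 0 < m)
      nlinarith
    · rw [hcop.primeFactors_mul, Nat.primeFactors_prime_pow hk.ne' Nat.prime_two] at hc
      have hd : Disjoint {2} m.primeFactors := by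
        rw [Finset.disjoint_singleton_left]
        intro h2
        exact (hpf 2 h2).2 rfl
      rw [Finset.card_union_of_disjoint hd, Finset.card_singleton] at hc
      have h1 : m.primeFactors.card = 1 := by
        have : 0 < m.primeFactors.card := Finset.card_pos.2 (Nat.nonempty_primeFactors.2 hm)
        omega
      obtain ⟨p, j, hp, hj, rfl⟩ := (isPrimePow_nat_iff _).1 (isPrimePow_iff_card_primeFactors_eq_one.2 h1)
      refine not_two_prime hp ?_ k j hj h
      rintro rfl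
      exact (Nat.not_even_iff_odd.2 hodd) ((even_two).pow_of_ne_zero hj.ne')
  · rintro ⟨k, rfl⟩
    have h1 := two_pow k
    have h2 : g (2 ^ k) + sig (2 ^ k) = 2 * T (2 ^ k) := by exact_mod_cast h1
    have h3 : g (2 ^ k) = (∑ d ∈ (2 ^ k).properDivisors, d * d.divisors.card) +
        2 ^ k * (2 ^ k).divisors.card := by
      unfold g
      rw [← Nat.insert_self_properDivisors (by positivity : 2 ^ k ≠ 0),
        Finset.sum_insert Nat.self_notMem_properDivisors,
        Nat.insert_self_properDivisors (by positivity : 2 ^ k ≠ 0), add_comm]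
    unfold a
    have h4 : ((∑ d ∈ Nat.properDivisors (2 ^ k), d * d.divisors.card : ℕ) : ℤ) =
      ∑ d ∈ Nat.properDivisors (2 ^ k), (d : ℤ) * (d.divisors.card : ℤ) := by push_cast; rfl
    rw [← h4]
    unfold T at h2
    zify at h2 h3
    push_cast at h2 h3 ⊢
    linarith

end Pool.Agent.T6.H74.SG
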